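import Pool.Agent.Q122.EX.Stm
import Pool.Agent.Q122.MB.WINa

set_option autoImplicit false

/-! Project EX (helper122), job GLX: the resonated sum of the squares parts is large in almost all
windows. -/

namespace Pool.Agent.Q238.EXT

open Finset Pool.Agent.Q122.EX Pool.Agent.Q122.MB Pool.Agent.Q122.FM

noncomputable section

theorem sum_SP_sq (P K : ℕ) (hP : 1 ≤ P) : ∑ p ∈ SP P K, (1 : ℝ) / (p : ℝ) ^ 2 ≤ 1 / P := by
  rcases Nat.eq_zero_or_pos K with hK | hK
  · subst hK
    have : SP P 0 = ∅ := by
      unfold SP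
      rw [pow_zero, Ioc_eq_empty (by omega), filter_empty]
    rw [this, sum_empty]
    positivity
  · have hPK : P ≤ P ^ K := Nat.le_self_pow hK.ne' P
    calc ∑ p ∈ SP P K, (1 : ℝ) / (p : ℝ) ^ 2 ≤ ∑ p ∈ Ioc P (P ^ K), (1 : ℝ) / (p : ℝ) ^ 2 := by
          apply sum_le_sum_of_subset_of_nonneg (filter_subset _ _)
          intro p _ _
          positivity
      _ = ∑ p ∈ Ioc P (P ^ K), ((p : ℝ) ^ 2)⁻¹ := by
          apply sum_congr rfl
          intro p _
          rw [one_div]
      _ ≤ (P : ℝ)⁻¹ - ((P ^ K : ℕ) : ℝ)⁻¹ := sum_Ioc_inv_sq_le_sub (by omega) hPK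
      _ ≤ 1 / P := by
          rw [one_div]
          have : (0 : ℝ) ≤ ((P ^ K : ℕ) : ℝ)⁻¹ := by positivity
          linarith

theorem prod_le_exp (S : Finset ℕ) (f : ℕ → ℝ) (hf : ∀ p ∈ S, 0 ≤ f p) :
    ∏ p ∈ S, (1 + f p) ≤ Real.exp (∑ p ∈ S, f p) := by
  rw [Real.exp_sum]
  apply prod_le_prod
  · intro p hp
    have := hf p hp
    linarith
  · intro p _
    have := Real.add_one_le_exp (f p)
    linarith

theorem t_GLX (gdx : Pool.Agent.Q122.EX.S_GDX) (gd : Pool.Agent.Q122.MB.S_GD)
    (wa1 : Pool.Agent.Q122.FM.S_WA1) : Pool.Agent.Q122.EX.S_GLX := by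
  obtain ⟨Cw, hCw, wa1⟩ := wa1
  obtain ⟨Cg, hCg, gd⟩ := gd 3
  have hPo := Po_pos
  set Ct : ℝ := (2 * Cg + (Real.exp 3 + 1)) / 2 with hCt
  have he3 : 0 < Real.exp 3 := Real.exp_pos 3
  have hCt0 : 0 < Ct := by positivity
  refine ⟨(Po / 16) ^ 2 / Ct, 16 * Cw / Po, by positivity, by positivity, ?_⟩
  intro Y h P K b hh hhY hP hb hbP hsum hlog
  have hh0 : (0 : ℝ) < h := by exact_mod_cast hh
  have hP0 : (0 : ℝ) < P := by exact_mod_cast (by omega : 0 < P)
  have hwa := wa1 1 (by norm_num) (by decide) Y h hh hhY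
  set Q : ℝ := ∏ p ∈ SP P K, (1 + b / (p : ℝ)) with hQ
  have hQ0 : 0 < Q := prod_pos fun p _ => by positivity
  set G : ℕ → ℝ := fun d => ∏ p ∈ (SP P K).filter (fun p => p ∣ d), (1 + b / (p : ℝ)) with hG
  have hG0 : ∀ d, 0 < G d := fun d => prod_pos fun p _ => by positivity
  set W : ℕ → ℝ := fun d => PK 1 d *
    ∏ p ∈ (SP P K).filter (fun p => ¬ p ∣ d), (1 + b / (p : ℝ)) with hW
  have hW0 : ∀ d, 0 < W d := fun d =>
    mul_pos (PK_pos 1 d) (prod_pos fun p _ => by positivity)
  have hGLo : ∀ y, GLo b P K y h = ∑ d ∈ wi y h, W d := fun y => rfl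
  have hWinv : ∀ d, (W d)⁻¹ = ((PK 1 d)⁻¹ * G d) / Q := by
    intro d
    have e1 : G d * ∏ p ∈ (SP P K).filter (fun p => ¬ p ∣ d), (1 + b / (p : ℝ)) = Q :=
      prod_filter_mul_prod_filter_not _ _ _
    have e2 : 0 < ∏ p ∈ (SP P K).filter (fun p => ¬ p ∣ d), (1 + b / (p : ℝ)) :=
      prod_pos fun p _ => by positivity
    rw [← e1]
    simp only [hW]
    have e3 := PK_pos 1 d
    have e4 := hG0 d
    field_simp
  -- the upper bound for the sum of PK^(-1) G
  have key : ∀ y, y < Y → ∑ d ∈ wi y h, (PK 1 d)⁻¹ * G d ≤ Ct * h := by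
    intro y hy
    have k1 : ∑ d ∈ wi y h, ((PK 1 d)⁻¹) ^ 2 ≤ 2 * Cg * h := by
      calc ∑ d ∈ wi y h, ((PK 1 d)⁻¹) ^ 2 ≤
            ∑ d ∈ wi y h, ∏ p ∈ d.primeFactors, (1 + ((3 : ℕ) : ℝ) / p) := by
            apply sum_le_sum
            intro d _
            unfold PK
            rw [inv_inv, ← prod_pow]
            apply prod_le_prod
            · intro p _
              positivity
            · intro p hp
              have hp1 : (1 : ℝ) ≤ p := by
                exact_mod_cast (Nat.prime_of_mem_primeFactors hp).one_lt.le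
              have hp2 : (1 : ℝ) / p ≤ 1 := by
                rw [div_le_one (by linarith)]
                exact hp1
              have hp3 : (0 : ℝ) ≤ 1 / p := by positivity
              have e1 : ((3 : ℕ) : ℝ) / p = 3 * (1 / p) := by push_cast; ring
              have e2 : ((1 : ℕ) : ℝ) / p = 1 / p := by push_cast; ring
              rw [e1, e2]
              nlinarith
        _ ≤ ∑ d ∈ Ioc y (y + h), ∏ p ∈ d.primeFactors, (1 + ((3 : ℕ) : ℝ) / p) := by
            apply sum_le_sum_of_subset_of_nonneg (filter_subset _ _)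
            intro d _ _
            apply prod_nonneg
            intro p _
            positivity
        _ ≤ Cg * (h + (1 + Real.log ((y + h : ℕ) : ℝ)) ^ 3) := gd y h hh
        _ ≤ Cg * (h + h) := by
            apply mul_le_mul_of_nonneg_left _ hCg.le
            have hyh1 : (1 : ℝ) ≤ ((y + h : ℕ) : ℝ) := by
              have : 1 ≤ y + h := by omega
              exact_mod_cast this
            have hyh : ((y + h : ℕ) : ℝ) ≤ 2 * Y := by
              have : y + h ≤ 2 * Y := by omega
              exact_mod_cast this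
            have h5 : Real.log ((y + h : ℕ) : ℝ) ≤ Real.log (2 * (Y : ℝ)) :=
              Real.log_le_log (by linarith) hyh
            have h6 : 0 ≤ Real.log ((y + h : ℕ) : ℝ) := Real.log_nonneg hyh1
            have h7 : (1 + Real.log ((y + h : ℕ) : ℝ)) ^ 3 ≤
                (1 + Real.log (2 * (Y : ℝ))) ^ 3 :=
              pow_le_pow_left₀ (by linarith) (by linarith) 3
            linarith
        _ = 2 * Cg * h := by ring
    have k2 : ∑ d ∈ wi y h, G d ^ 2 ≤ (Real.exp 3 + 1) * h := by
      calc ∑ d ∈ wi y h, G d ^ 2 ≤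
            ∑ d ∈ wi y h, ∏ p ∈ (SP P K).filter (fun p => p ∣ d), (1 + 3 * b / (p : ℝ)) := by
            apply sum_le_sum
            intro d _
            simp only [hG]
            rw [← prod_pow]
            apply prod_le_prod
            · intro p _
              positivity
            · intro p hp
              rw [mem_filter, SP, mem_filter, mem_Ioc] at hp
              have hpP : (P : ℝ) ≤ p := by exact_mod_cast hp.1.1.1.le
              have hp0 : (0 : ℝ) < p := by linarith
              have hp2 : b / p ≤ 1 := by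
                rw [div_le_one hp0]
                linarith
              have hp3 : (0 : ℝ) ≤ b / p := by positivity
              have e1 : 3 * b / (p : ℝ) = 3 * (b / p) := by ring
              rw [e1]
              nlinarith
        _ ≤ ∑ d ∈ Ioc y (y + h), ∏ p ∈ (SP P K).filter (fun p => p ∣ d),
              (1 + 3 * b / (p : ℝ)) := by
            apply sum_le_sum_of_subset_of_nonneg (filter_subset _ _)
            intro d _ _
            apply prod_nonneg
            intro p _
            positivity
        _ ≤ h * ∏ p ∈ SP P K, (1 + 3 * b / (p : ℝ) / p) +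
              ∏ p ∈ SP P K, (1 + 3 * b / (p : ℝ)) := by
            apply gdx (SP P K) (fun p => 3 * b / (p : ℝ)) _ y h
            intro p hp
            rw [SP, mem_filter] at hp
            exact ⟨hp.2, by positivity⟩
        _ ≤ h * Real.exp 3 + h := by
            apply add_le_add
            · apply mul_le_mul_of_nonneg_left _ hh0.le
              refine (prod_le_exp _ (fun p => 3 * b / (p : ℝ) / p)
                (fun p _ => by positivity)).trans ?_
              apply Real.exp_le_exp.2
              have e1 : ∑ p ∈ SP P K, 3 * b / (p : ℝ) / p =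
                  3 * (b * ∑ p ∈ SP P K, (1 : ℝ) / (p : ℝ) ^ 2) := by
                rw [mul_sum, mul_sum]
                apply sum_congr rfl
                intro p _
                rw [div_div, ← sq]
                ring
              rw [e1]
              have h1 := mul_le_mul_of_nonneg_left (sum_SP_sq P K (by omega)) hb
              have h2 : b * (1 / (P : ℝ)) ≤ 1 := by
                rw [mul_one_div, div_le_one hP0]
                exact hbP
              linarith
            · refine (prod_le_exp _ (fun p => 3 * b / (p : ℝ))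
                (fun p _ => by positivity)).trans ?_
              have e1 : ∑ p ∈ SP P K, 3 * b / (p : ℝ) =
                  3 * b * ∑ p ∈ SP P K, (1 : ℝ) / p := by
                rw [mul_sum]
                apply sum_congr rfl
                intro p _
                ring
              rw [e1]
              calc _ ≤ Real.exp (Real.log h) := Real.exp_le_exp.2 hsum
                _ = h := Real.exp_log hh0
        _ = _ := by ring
    calc ∑ d ∈ wi y h, (PK 1 d)⁻¹ * G d ≤
          ∑ d ∈ wi y h, (((PK 1 d)⁻¹) ^ 2 + G d ^ 2) / 2 := by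
          apply sum_le_sum
          intro d _
          nlinarith [sq_nonneg ((PK 1 d)⁻¹ - G d)]
      _ = (∑ d ∈ wi y h, ((PK 1 d)⁻¹) ^ 2 + ∑ d ∈ wi y h, G d ^ 2) / 2 := by
          rw [← sum_div, sum_add_distrib]
      _ ≤ (2 * Cg * h + (Real.exp 3 + 1) * h) / 2 := by linarith
      _ = Ct * h := by rw [hCt]; ring
  have hmk := card_markov (range Y) (fun y => |∑ d ∈ wi y h, (d.totient : ℝ) / d - Po / 8 * h|)
    (fun y _ => abs_nonneg _) (Po / 16 * h) (by positivity) _ hwa
    (fun y => GLo b P K y h < (Po / 16) ^ 2 / Ct * h * Q) (by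
      intro y hy hL
      rw [mem_range] at hy
      by_contra hlt
      rw [not_le] at hlt
      have h1 : Po / 16 * h < ∑ d ∈ wi y h, (d.totient : ℝ) / d := by
        have := (abs_lt.1 hlt).1
        linarith
      have h2 : ∑ d ∈ wi y h, (d.totient : ℝ) / d ≤ (wi y h).card := by
        calc _ ≤ ∑ d ∈ wi y h, (1 : ℝ) := by
              apply sum_le_sum
              intro d hd
              rw [wi, mem_filter] at hd
              have hd0 : 0 < d := Nat.pos_of_ne_zero hd.2.2.ne_zero
              have hd0' : (0 : ℝ) < d := by exact_mod_cast hd0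
              rw [div_le_one hd0']
              exact_mod_cast Nat.totient_le d
          _ = _ := by simp
      have h3 : ((wi y h).card : ℝ) ^ 2 ≤ GLo b P K y h * ∑ d ∈ wi y h, (W d)⁻¹ := by
        have := sum_mul_sq_le_sq_mul_sq (wi y h) (fun d => Real.sqrt (W d))
          (fun d => Real.sqrt ((W d)⁻¹))
        have e1 : ∀ d ∈ wi y h, Real.sqrt (W d) * Real.sqrt ((W d)⁻¹) = 1 := by
          intro d _
          rw [← Real.sqrt_mul (hW0 d).le, mul_inv_cancel₀ (hW0 d).ne', Real.sqrt_one]
        rw [sum_congr rfl e1] at this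
        have e2 : ∀ d ∈ wi y h, Real.sqrt (W d) ^ 2 = W d :=
          fun d _ => Real.sq_sqrt (hW0 d).le
        have e3 : ∀ d ∈ wi y h, Real.sqrt ((W d)⁻¹) ^ 2 = (W d)⁻¹ :=
          fun d _ => Real.sq_sqrt (inv_pos.2 (hW0 d)).le
        rw [sum_congr rfl e2, sum_congr rfl e3] at this
        rw [hGLo]
        simpa using this
      have h4 : ∑ d ∈ wi y h, (W d)⁻¹ ≤ Ct * h / Q := by
        rw [sum_congr rfl (fun d _ => hWinv d), ← sum_div]
        exact div_le_div_of_nonneg_right (key y hy) hQ0.le
      have hGnn : 0 ≤ GLo b P K y h := by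
        rw [hGLo]
        exact sum_nonneg fun d _ => (hW0 d).le
      have h5 : (Po / 16 * h) ^ 2 < ((wi y h).card : ℝ) ^ 2 := by
        apply pow_lt_pow_left₀ _ (by positivity) (by norm_num)
        linarith
      have h6 : GLo b P K y h * ∑ d ∈ wi y h, (W d)⁻¹ ≤ GLo b P K y h * (Ct * h / Q) :=
        mul_le_mul_of_nonneg_left h4 hGnn
      have h7 : GLo b P K y h * (Ct * h / Q) < (Po / 16) ^ 2 / Ct * h * Q * (Ct * h / Q) :=
        mul_lt_mul_of_pos_right hL (by positivity)
      have h8 : (Po / 16) ^ 2 / Ct * h * Q * (Ct * h / Q) = (Po / 16 * h) ^ 2 := by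
        field_simp
      linarith)
  refine hmk.trans (le_of_eq ?_)
  have hs : Real.sqrt h * Real.sqrt h = h := Real.mul_self_sqrt hh0.le
  have hs0 : 0 < Real.sqrt h := Real.sqrt_pos.2 hh0
  rw [div_eq_div_iff (by positivity) hs0.ne']
  calc Cw * Y * Real.sqrt h * Real.sqrt h = Cw * Y * (Real.sqrt h * Real.sqrt h) := by ring
    _ = Cw * Y * h := by rw [hs]
    _ = _ := by field_simp

end

end Pool.Agent.Q238.EXT
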