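import Pool.Agent.Q122.EX.Stm

set_option autoImplicit false

/-! Project EX (helper122), job PAR: the choice of the parameters of the resonator. -/

namespace Pool.Agent.Q238.EXT

open Finset Filter Topology Pool.Agent.Q122.EX

noncomputable section

theorem ratio_aux {x t : ℝ} (hx0 : 0 ≤ x) (hx1 : x ≤ 1) (ht0 : 0 ≤ t) (ht1 : t ≤ 1) :
    Real.exp (t / 4) * (1 + x) ≤ 1 + (x + t) := by
  have h1 : Real.exp (t / 4) ≤ 1 + t / 4 + (t / 4) ^ 2 := by
    have := Real.abs_exp_sub_one_sub_id_le (x := t / 4) (by rw [abs_of_nonneg (by linarith)]; linarith)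
    have h2 := (abs_le.1 this).2
    linarith
  have h3 : Real.exp (t / 4) ≤ 1 + t / 2 := by nlinarith
  have h4 := mul_le_mul_of_nonneg_right h3 (by linarith : 0 ≤ 1 + x)
  nlinarith [mul_nonneg ht0 (sub_nonneg.2 hx1)]

theorem t_PAR (mer : Pool.Agent.Q122.EX.S_MER) : Pool.Agent.Q122.EX.S_PAR := by
  obtain ⟨K, C, hK, hC, mer⟩ := mer
  have heK : 1 ≤ Real.exp (K : ℝ) := Real.one_le_exp (by positivity)
  have hC0 : 0 < C := by linarith
  set η : ℝ := 1 / (16 * Real.exp K * C) with hη
  have hη0 : 0 < η := by positivity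
  have hηe : η * (16 * Real.exp K * C) = 1 := by
    rw [hη]; field_simp
  have hηC : η * C ≤ 1 / 16 := by
    have h1 : η * C * 16 * 1 ≤ η * C * 16 * Real.exp K :=
      mul_le_mul_of_nonneg_left heK (by positivity)
    nlinarith
  have hη1 : η ≤ 1 / 16 := by
    have h1 : η * 1 ≤ η * C := mul_le_mul_of_nonneg_left hC hη0.le
    linarith
  -- large N
  have hev : ∀ᶠ L : ℝ in atTop, 3 ≤ L ∧ Real.log (2 * L) ≤ η * L := by
    have h1 := Real.isLittleO_log_id_atTop.bound (half_pos hη0)
    have h2 : ∀ᶠ L : ℝ in atTop, 3 ≤ L := eventually_ge_atTop 3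
    have h3 : ∀ᶠ L : ℝ in atTop, 2 * Real.log 2 / η ≤ L := eventually_ge_atTop _
    filter_upwards [h1, h2, h3] with L h1 h2 h3
    refine ⟨h2, ?_⟩
    rw [Real.log_mul (by norm_num) (by linarith)]
    simp only [id, Real.norm_eq_abs] at h1
    rw [abs_of_nonneg (by linarith : 0 ≤ L)] at h1
    have h4 := (le_abs_self _).trans h1
    rw [div_le_iff₀ hη0] at h3
    linarith
  have hev2 : ∀ᶠ N : ℕ in atTop, 3 ≤ Real.log (N : ℝ) ∧
      Real.log (2 * Real.log (N : ℝ)) ≤ η * Real.log (N : ℝ) :=
    (Real.tendsto_log_atTop.comp tendsto_natCast_atTop_atTop).eventually hev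
  obtain ⟨N1, hN1⟩ := eventually_atTop.1 hev2
  refine ⟨Real.sqrt (η / 2) / 4, K, max N1 3, by positivity, le_max_right _ _, ?_⟩
  intro N hN
  obtain ⟨hL3, hL⟩ := hN1 N (le_trans (le_max_left _ _) hN)
  set L := Real.log (N : ℝ) with hLdef
  have hL0 : 0 < L := by linarith
  set P : ℕ := ⌊L⌋₊ + 1 with hP
  have hPL : L ≤ P := by
    rw [hP]; push_cast
    exact (Nat.lt_floor_add_one L).le
  have hP2L : (P : ℝ) ≤ 2 * L := by
    rw [hP]; push_cast
    have := Nat.floor_le hL0.le
    linarith
  have hP3 : 3 ≤ P := by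
    have : (3 : ℝ) ≤ P := by linarith
    exact_mod_cast this
  have hP0 : (0 : ℝ) < P := by linarith
  have hlP1 : 1 ≤ Real.log P := by
    have h3 : Real.exp 1 ≤ P := by
      have := Real.exp_one_lt_d9
      linarith
    have := Real.log_le_log (Real.exp_pos 1) h3
    rwa [Real.log_exp] at this
  have hlP0 : 0 < Real.log P := by linarith
  have hlPL : Real.log P ≤ Real.log (2 * L) := Real.log_le_log hP0 hP2L
  have hlPη : Real.log P ≤ η * L := hlPL.trans hL
  set A : ℝ := Real.sqrt (η * L / Real.log P) with hA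
  have hA0 : 0 ≤ A := Real.sqrt_nonneg _
  have hA2 : A ^ 2 = η * L / Real.log P := Real.sq_sqrt (by positivity)
  have hA2' : A ^ 2 * Real.log P = η * L := by
    rw [hA2]; field_simp
  have hA1 : 1 ≤ A := by
    rw [hA]
    apply Real.one_le_sqrt.2
    rwa [one_le_div hlP0]
  have hA2L : A ^ 2 ≤ η * L := by
    have := mul_le_mul_of_nonneg_left hlP1 (sq_nonneg A)
    linarith
  have hA2A : A ^ 2 + A ≤ 2 * A ^ 2 := by nlinarith
  have hA2L' : A ^ 2 ≤ L / 16 := by
    have := mul_le_mul_of_nonneg_right hη1 hL0.le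
    linarith
  obtain ⟨m1, m2⟩ := mer P hP3
  have hAA0 : 0 ≤ A ^ 2 + A := by positivity
  have hAP : A ^ 2 + A ≤ P := by linarith
  refine ⟨P, A, hP3, hA0, by linarith, hAP, ?_, ?_, ?_⟩
  · have h1 : Real.exp K * (A ^ 2 + A) * ∑ p ∈ SP P K, (1 : ℝ) / p ≤
        Real.exp K * (2 * A ^ 2) * C := by
      apply mul_le_mul _ m2 (by linarith) (by positivity)
      exact mul_le_mul_of_nonneg_left hA2A (by positivity)
    have h2 : Real.log P * (Real.exp K * (2 * A ^ 2) * C) = L / 8 := by
      calc _ = 2 * (A ^ 2 * Real.log P) * (Real.exp K * C) := by ring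
        _ = (η * (16 * Real.exp K * C)) * L / 8 := by rw [hA2']; ring
        _ = _ := by rw [hηe]; ring
    have h3 := mul_le_mul_of_nonneg_left h1 hlP0.le
    have h4 : Real.log P * Real.log 2 ≤ L / 16 := by
      have h5 : Real.log 2 ≤ 1 := by
        have := Real.log_two_lt_d9
        linarith
      have h6 := mul_le_mul_of_nonneg_left h5 hlP0.le
      have := mul_le_mul_of_nonneg_right hη1 hL0.le
      linarith
    rw [mul_add]
    linarith
  · have h1 : 3 * (A ^ 2 + A) * ∑ p ∈ SP P K, (1 : ℝ) / p ≤ 3 * (2 * A ^ 2) * C := by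
      apply mul_le_mul _ m2 (by linarith) (by positivity)
      exact mul_le_mul_of_nonneg_left hA2A (by positivity)
    have h2 : 3 * (2 * A ^ 2) * C ≤ 6 * (η * L) * C := by
      have := mul_le_mul_of_nonneg_right hA2L hC0.le
      linarith
    have h3 := mul_le_mul_of_nonneg_right hηC hL0.le
    linarith
  · have h1 : Real.exp (A / 4) * ∏ p ∈ SP P K, (1 + A ^ 2 / (p : ℝ)) ≤
        ∏ p ∈ SP P K, (1 + (A ^ 2 + A) / (p : ℝ)) := by
      have h2 : Real.exp (A / 4) ≤ ∏ p ∈ SP P K, Real.exp (A / p / 4) := by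
        rw [← Real.exp_sum]
        apply Real.exp_le_exp.2
        have e1 : ∑ p ∈ SP P K, A / (p : ℝ) / 4 = A / 4 * ∑ p ∈ SP P K, (1 : ℝ) / p := by
          rw [mul_sum]
          apply sum_congr rfl
          intro p _
          ring
        rw [e1]
        exact le_mul_of_one_le_right (by positivity) m1
      have hnn : 0 ≤ ∏ p ∈ SP P K, (1 + A ^ 2 / (p : ℝ)) :=
        prod_nonneg fun p _ => by positivity
      refine (mul_le_mul_of_nonneg_right h2 hnn).trans ?_
      rw [← prod_mul_distrib]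
      apply Finset.prod_le_prod
      · intro p _
        positivity
      · intro p hp
        rw [SP, mem_filter, mem_Ioc] at hp
        have hpP : (P : ℝ) ≤ p := by exact_mod_cast hp.1.1.le
        have hp0 : (0 : ℝ) < p := by linarith
        have h3 := ratio_aux (x := A ^ 2 / p) (t := A / p) (by positivity)
          (by rw [div_le_one hp0]; linarith) (by positivity)
          (by rw [div_le_one hp0]; nlinarith)
        refine h3.trans (le_of_eq ?_)
        rw [add_div]
    refine le_trans (mul_le_mul_of_nonneg_right (Real.exp_le_exp.2 ?_)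
      (prod_nonneg fun p _ => by positivity)) h1
    have hlL : Real.log (2 * L) ≤ 2 * Real.log L := by
      rw [Real.log_mul (by norm_num) hL0.ne']
      have := Real.log_le_log (by norm_num : (0 : ℝ) < 2) (by linarith : (2 : ℝ) ≤ L)
      linarith
    have hlL0 : 0 < Real.log L := Real.log_pos (by linarith)
    have h2 : Real.sqrt (η / 2) * Real.sqrt (L / Real.log L) ≤ A := by
      rw [← Real.sqrt_mul (by positivity), hA]
      apply Real.sqrt_le_sqrt
      rw [div_mul_div_comm]
      apply div_le_div_of_nonneg_left (by positivity) hlP0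
      linarith
    linarith

end

end Pool.Agent.Q238.EXT
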