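import Pool.Agent.Q122.EX.Stm

set_option autoImplicit false

/-! Project EX (helper122), job RKN: Rankin's trick. -/

namespace Pool.Agent.Q238.EXT

open Finset Pool.Agent.Q122.EX

noncomputable section

theorem mem_SP {P K p : ℕ} : p ∈ SP P K ↔ (P < p ∧ p ≤ P ^ K) ∧ p.Prime := by
  unfold SP
  rw [mem_filter, mem_Ioc]

theorem prime_of_mem {P K : ℕ} {T : Finset ℕ} (hT : T ⊆ SP P K) : ∀ p ∈ T, p.Prime :=
  fun p hp => (mem_SP.1 (hT hp)).2

/-- the product of a set of primes -/
theorem pf_prod {T : Finset ℕ} (hT : ∀ p ∈ T, p.Prime) : (∏ p ∈ T, p).primeFactors = T :=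
  Nat.primeFactors_prod hT

theorem sqf_prod {T : Finset ℕ} (hT : ∀ p ∈ T, p.Prime) : Squarefree (∏ p ∈ T, p) := by
  apply Finset.squarefree_prod_of_pairwise_isCoprime
  · intro p hp q hq hpq
    exact Nat.coprime_iff_isRelPrime.1 ((Nat.coprime_primes (hT p hp) (hT q hq)).2 hpq)
  · intro p hp
    exact (hT p hp).squarefree

theorem prod_pos' {T : Finset ℕ} (hT : ∀ p ∈ T, p.Prime) : 0 < ∏ p ∈ T, p :=
  prod_pos fun p hp => (hT p hp).pos

theorem qq_nonneg {b : ℝ} (hb : 0 ≤ b) (P K n : ℕ) : 0 ≤ qq b P K n := by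
  unfold qq
  split_ifs
  · positivity
  · exact le_rfl

theorem qq_prod (b : ℝ) (P K : ℕ) {T : Finset ℕ} (hT : T ⊆ SP P K) :
    qq b P K (∏ p ∈ T, p) = ∏ p ∈ T, b / p := by
  have hp := prime_of_mem hT
  unfold qq
  rw [if_pos ⟨sqf_prod hp, by rw [pf_prod hp]; exact hT⟩, pf_prod hp, prod_div_distrib,
    prod_const]
  push_cast
  rfl

/-- a sum over the subsets is at most a sum over integers -/
theorem sum_subsets_le (f : ℕ → ℝ) (hf : ∀ n, 0 ≤ f n) (A : Finset (Finset ℕ)) (B : Finset ℕ)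
    (hA : ∀ T ∈ A, (∀ p ∈ T, p.Prime) ∧ ∏ p ∈ T, p ∈ B) :
    ∑ T ∈ A, f (∏ p ∈ T, p) ≤ ∑ n ∈ B, f n := by
  have hinj : Set.InjOn (fun T : Finset ℕ => ∏ p ∈ T, p) A := by
    intro T hT U hU h
    have h1 := pf_prod (hA T hT).1
    have h2 := pf_prod (hA U hU).1
    simp only at h
    rw [← h1, ← h2, h]
  rw [← sum_image (f := f) hinj]
  apply sum_le_sum_of_subset_of_nonneg
  · intro n hn
    rw [mem_image] at hn
    obtain ⟨T, hT, rfl⟩ := hn
    exact (hA T hT).2
  · intro n _ _
    exact hf n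

theorem t_RKN : S_RKN := by
  intro b P K N d hb hP hN hd hlog
  set S := (SP P K).filter (fun p => ¬ p ∣ d) with hS
  have hSs : S ⊆ SP P K := filter_subset _ _
  have hSp : ∀ p ∈ S, p.Prime := prime_of_mem hSs
  have hP1 : (1 : ℝ) < P := by exact_mod_cast (by omega : 1 < P)
  have hlP : 0 < Real.log P := Real.log_pos hP1
  -- expansion of the product
  have e1 : ∏ p ∈ S, (1 + b / (p : ℝ)) = ∑ T ∈ S.powerset, ∏ p ∈ T, b / (p : ℝ) :=
    prod_one_add _
  have e2 : ∏ p ∈ S, (1 + Real.exp K * b / (p : ℝ)) =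
      ∑ T ∈ S.powerset, ∏ p ∈ T, Real.exp K * b / (p : ℝ) := prod_one_add _
  -- the short part
  have h1 : ∑ T ∈ S.powerset.filter (fun T => ∏ p ∈ T, p ≤ N), ∏ p ∈ T, b / (p : ℝ) ≤
      ∑ n ∈ (Icc 1 N).filter (fun n => n.Coprime d), qq b P K n := by
    have e3 : ∀ T ∈ S.powerset.filter (fun T => ∏ p ∈ T, p ≤ N), ∏ p ∈ T, b / (p : ℝ) =
        qq b P K (∏ p ∈ T, p) := by
      intro T hT
      rw [mem_filter, mem_powerset] at hT
      exact (qq_prod b P K (hT.1.trans hSs)).symm
    rw [sum_congr rfl e3]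
    apply sum_subsets_le _ (qq_nonneg hb P K)
    intro T hT
    rw [mem_filter, mem_powerset] at hT
    have hTp : ∀ p ∈ T, p.Prime := fun p hp => hSp p (hT.1 hp)
    refine ⟨hTp, ?_⟩
    rw [mem_filter, mem_Icc]
    refine ⟨⟨prod_pos' hTp, hT.2⟩, ?_⟩
    apply Nat.Coprime.prod_left
    intro p hp
    have hpS := hT.1 hp
    rw [hS, mem_filter] at hpS
    exact (Nat.Prime.coprime_iff_not_dvd (hTp p hp)).2 hpS.2
  -- the tail
  have h2 : ∑ T ∈ S.powerset.filter (fun T => ¬ ∏ p ∈ T, p ≤ N), ∏ p ∈ T, b / (p : ℝ) ≤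
      Real.exp (-(Real.log N / Real.log P)) * ∏ p ∈ S, (1 + Real.exp K * b / (p : ℝ)) := by
    rw [e2, mul_sum]
    refine le_trans ?_ (sum_le_sum_of_subset_of_nonneg (filter_subset (fun T => ¬ ∏ p ∈ T, p ≤ N) _)
      (fun T _ _ => ?_))
    · apply sum_le_sum
      intro T hT
      rw [mem_filter, mem_powerset, not_le] at hT
      have hTp : ∀ p ∈ T, p.Prime := fun p hp => hSp p (hT.1 hp)
      have e4 : ∏ p ∈ T, Real.exp K * b / (p : ℝ) =
          Real.exp K ^ T.card * ∏ p ∈ T, b / (p : ℝ) := by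
        rw [← prod_const, ← prod_mul_distrib]
        apply prod_congr rfl
        intro p _
        ring
      rw [e4, ← mul_assoc]
      have hnn : 0 ≤ ∏ p ∈ T, b / (p : ℝ) := prod_nonneg fun p _ => by positivity
      apply le_mul_of_one_le_left hnn
      rw [← Real.exp_nat_mul, ← Real.exp_add]
      apply Real.one_le_exp
      have h3 : Real.log N ≤ T.card * (K * Real.log P) := by
        have h4 : Real.log N ≤ Real.log ((∏ p ∈ T, p : ℕ) : ℝ) := by
          apply Real.log_le_log (by exact_mod_cast hN)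
          exact_mod_cast hT.2.le
        refine h4.trans ?_
        push_cast
        rw [Real.log_prod (fun p hp => by exact_mod_cast (hTp p hp).ne_zero)]
        calc ∑ p ∈ T, Real.log (p : ℝ) ≤ ∑ p ∈ T, K * Real.log P := by
              apply sum_le_sum
              intro p hp
              have hm := mem_SP.1 (hSs (hT.1 hp))
              have h5 : (p : ℝ) ≤ (P : ℝ) ^ K := by exact_mod_cast hm.1.2
              have h6 : (0 : ℝ) < p := by exact_mod_cast (hTp p hp).pos
              calc Real.log (p : ℝ) ≤ Real.log ((P : ℝ) ^ K) := Real.log_le_log h6 h5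
                _ = _ := Real.log_pow _ _
          _ = _ := by rw [sum_const, nsmul_eq_mul]
      have h7 : Real.log N / Real.log P ≤ T.card * K := by
        rw [div_le_iff₀ hlP]
        linarith
      linarith
    · apply mul_nonneg (Real.exp_pos _).le
      exact prod_nonneg fun p _ => by positivity
  have h3 : ∏ p ∈ S, (1 + Real.exp K * b / (p : ℝ)) ≤
      Real.exp (Real.exp K * b * ∑ p ∈ SP P K, (1 : ℝ) / p) := by
    calc ∏ p ∈ S, (1 + Real.exp K * b / (p : ℝ)) ≤
          ∏ p ∈ S, Real.exp (Real.exp K * b / (p : ℝ)) := by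
          apply prod_le_prod
          · intro p _
            positivity
          · intro p _
            have := Real.add_one_le_exp (Real.exp K * b / (p : ℝ))
            linarith
      _ = Real.exp (∑ p ∈ S, Real.exp K * b / (p : ℝ)) := (Real.exp_sum _ _).symm
      _ ≤ _ := by
          apply Real.exp_le_exp.2
          have e5 : ∑ p ∈ S, Real.exp K * b / (p : ℝ) =
              Real.exp K * b * ∑ p ∈ S, (1 : ℝ) / p := by
            rw [mul_sum]
            apply sum_congr rfl
            intro p _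
            ring
          rw [e5]
          apply mul_le_mul_of_nonneg_left _ (by positivity)
          apply sum_le_sum_of_subset_of_nonneg hSs
          intro p _ _
          positivity
  have h4 : Real.exp (-(Real.log N / Real.log P)) *
      Real.exp (Real.exp K * b * ∑ p ∈ SP P K, (1 : ℝ) / p) ≤ 1 / 2 := by
    rw [← Real.exp_add]
    have h5 : Real.log 2 + Real.exp K * b * ∑ p ∈ SP P K, (1 : ℝ) / p ≤
        Real.log N / Real.log P := by
      rw [le_div_iff₀ hlP]
      linarith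
    calc _ ≤ Real.exp (-(Real.log 2)) := Real.exp_le_exp.2 (by linarith)
      _ = 1 / 2 := by rw [Real.exp_neg, Real.exp_log (by norm_num)]; norm_num
  have h5 : ∑ T ∈ S.powerset.filter (fun T => ¬ ∏ p ∈ T, p ≤ N), ∏ p ∈ T, b / (p : ℝ) ≤ 1 / 2 :=
    h2.trans ((mul_le_mul_of_nonneg_left h3 (Real.exp_pos _).le).trans h4)
  have h6 : 1 ≤ ∏ p ∈ S, (1 + b / (p : ℝ)) := by
    calc (1 : ℝ) = ∏ p ∈ S, (1 : ℝ) := by simp
      _ ≤ ∏ p ∈ S, (1 + b / (p : ℝ)) := by
          apply prod_le_prod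
          · intro p _
            norm_num
          · intro p _
            have : 0 ≤ b / (p : ℝ) := by positivity
            linarith
  have h7 := sum_filter_add_sum_filter_not S.powerset (fun T => ∏ p ∈ T, p ≤ N)
    (fun T => ∏ p ∈ T, b / (p : ℝ))
  rw [← e1] at h7
  linarith

end

end Pool.Agent.Q238.EXT
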