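import Pool.Agent.Q122.EX.Stm

set_option autoImplicit false

/-! Project EX (helper122), job UPX: mean square of the resonator in a window. -/

namespace Pool.Agent.Q238.EXT

open Finset Pool.Agent.Q122.EX Pool.Agent.H306R2.RZ

noncomputable section

theorem rr_nonneg {A : ℝ} (hA : 0 ≤ A) (P K n : ℕ) : 0 ≤ rr A P K n := by
  unfold rr
  split_ifs
  · exact prod_nonneg fun p _ => by positivity
  · exact le_rfl

theorem rr_le_one {A : ℝ} (hA : 0 ≤ A) {P : ℕ} (hAP : A ^ 2 ≤ P) (K n : ℕ) :
    rr A P K n ≤ 1 := by
  unfold rr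
  split_ifs with h
  · apply prod_le_one
    · intro p _
      positivity
    · intro p hp
      have hp1 := h.2 hp
      rw [SP, mem_filter, mem_Ioc] at hp1
      have hp2 : (P : ℝ) ≤ p := by exact_mod_cast hp1.1.1.le
      have hp3 : (0 : ℝ) < p := by exact_mod_cast hp1.2.pos
      rw [div_le_one (Real.sqrt_pos.2 hp3)]
      exact Real.le_sqrt_of_sq_le (hAP.trans hp2)
  · norm_num

theorem sqf_mul_sq {m n : ℕ} (hm : Squarefree m) (hn : Squarefree n) (h : IsSquare (m * n)) :
    m = n := by
  obtain ⟨s, hs⟩ := h
  have hm0 := hm.ne_zero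
  have hn0 := hn.ne_zero
  have hs0 : s ≠ 0 := by
    rintro rfl
    simp [hm0, hn0] at hs
  apply Nat.eq_of_factorization_eq hm0 hn0
  intro p
  have h1 := congrArg (fun k => k.factorization p) hs
  simp only [Nat.factorization_mul hm0 hn0, Nat.factorization_mul hs0 hs0, Finsupp.add_apply] at h1
  have h2 := hm.natFactorization_le_one p
  have h3 := hn.natFactorization_le_one p
  omega

theorem sum_rr_sq {A : ℝ} (P K : ℕ) (B : Finset ℕ) :
    ∑ n ∈ B, rr A P K n ^ 2 ≤ ∏ p ∈ SP P K, (1 + A ^ 2 / (p : ℝ)) := by
  classical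
  rw [prod_one_add]
  set B' := B.filter (fun n => Squarefree n ∧ n.primeFactors ⊆ SP P K) with hB'
  have e1 : ∑ n ∈ B, rr A P K n ^ 2 = ∑ n ∈ B', ∏ p ∈ n.primeFactors, A ^ 2 / (p : ℝ) := by
    rw [hB', sum_filter]
    apply sum_congr rfl
    intro n _
    unfold rr
    split_ifs with h
    · rw [← prod_pow]
      apply prod_congr rfl
      intro p _
      rw [div_pow, Real.sq_sqrt (by positivity)]
    · simp
  rw [e1]
  have hinj : Set.InjOn (fun n : ℕ => n.primeFactors) B' := by
    intro m hm n hn hmn
    have hm' : Squarefree m := by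
      have := mem_coe.1 hm
      rw [hB', mem_filter] at this
      exact this.2.1
    have hn' : Squarefree n := by
      have := mem_coe.1 hn
      rw [hB', mem_filter] at this
      exact this.2.1
    simp only at hmn
    rw [← Nat.prod_primeFactors_of_squarefree hm', ← Nat.prod_primeFactors_of_squarefree hn', hmn]
  rw [← sum_image (f := fun T : Finset ℕ => ∏ p ∈ T, A ^ 2 / (p : ℝ)) hinj]
  apply sum_le_sum_of_subset_of_nonneg
  · intro T hT
    rw [mem_image] at hT
    obtain ⟨n, hn, rfl⟩ := hT
    rw [hB', mem_filter] at hn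
    exact mem_powerset.2 hn.2.2
  · intro T _ _
    exact prod_nonneg fun p _ => by positivity

theorem t_UPX (_rsq : Pool.Agent.Q122.EX.S_RSQ) (ch : Pool.Agent.Q122.MB.S_CH) :
    Pool.Agent.Q122.EX.S_UPX := by
  intro e he c hc hco A P K N y h hA hAP hP hN
  set D := (Ioc y (y + h)).filter (fun d => d % 8 = c) with hD
  have hcard : (D.card : ℝ) ≤ h := by
    have : D.card ≤ h := by
      refine (card_filter_le _ _).trans ?_
      rw [Nat.card_Ioc]; omega
    exact_mod_cast this
  set O := (Icc 1 N).filter (fun n => Odd n) with hO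
  have e1 : ∑ d ∈ D, RS A P K e N d ^ 2 = ∑ m ∈ O, ∑ n ∈ O,
      rr A P K m * rr A P K n * ∑ d ∈ D, js (e * (d : ℤ)) m * js (e * (d : ℤ)) n := by
    have e2 : ∀ d ∈ D, RS A P K e N d ^ 2 = ∑ m ∈ O, ∑ n ∈ O,
        rr A P K m * rr A P K n * (js (e * (d : ℤ)) m * js (e * (d : ℤ)) n) := by
      intro d _
      unfold RS
      rw [sq, sum_mul_sum]
      apply sum_congr rfl
      intro m _
      apply sum_congr rfl
      intro n _
      ring
    rw [sum_congr rfl e2, sum_comm]
    apply sum_congr rfl
    intro m _
    rw [sum_comm]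
    apply sum_congr rfl
    intro n _
    rw [mul_sum]
  have habs : ∀ (k : ℤ) (n : ℕ), |js k n| ≤ 1 := by
    intro k n
    unfold js
    rcases jacobiSym.trichotomy k n with h | h | h <;> rw [h] <;> simp
  have h1 : ∀ m ∈ O, ∀ n ∈ O,
      rr A P K m * rr A P K n * ∑ d ∈ D, js (e * (d : ℤ)) m * js (e * (d : ℤ)) n ≤
      (if m = n then rr A P K m ^ 2 * h else 0) + 8 * (m : ℝ) * n := by
    intro m hm n hn
    rw [hO, mem_filter, mem_Icc] at hm hn
    have rm0 := rr_nonneg hA P K m
    have rn0 := rr_nonneg hA P K n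
    have rm1 := rr_le_one hA hAP K m
    have rn1 := rr_le_one hA hAP K n
    have hmn0 : 0 ≤ 8 * (m : ℝ) * n := by positivity
    split_ifs with hmn
    · subst hmn
      have h2 : ∑ d ∈ D, js (e * (d : ℤ)) m * js (e * (d : ℤ)) m ≤ h := by
        calc _ ≤ ∑ d ∈ D, (1 : ℝ) := by
              apply sum_le_sum
              intro d _
              have := habs (e * (d : ℤ)) m
              rw [← abs_mul_abs_self]
              nlinarith [abs_nonneg (js (e * (d : ℤ)) m)]
          _ = D.card := by simp
          _ ≤ h := hcard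
      have h3 := mul_le_mul_of_nonneg_left h2 (mul_nonneg rm0 rm0)
      rw [sq]
      linarith
    · by_cases hz : rr A P K m = 0 ∨ rr A P K n = 0
      · have : rr A P K m * rr A P K n = 0 := by
          rcases hz with hz | hz <;> rw [hz] <;> simp
        rw [this, zero_mul]
        linarith
      · push Not at hz
        have sm : Squarefree m := by
          by_contra hs
          apply hz.1
          unfold rr
          rw [if_neg (fun hh => hs hh.1)]
        have sn : Squarefree n := by
          by_contra hs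
          apply hz.2
          unfold rr
          rw [if_neg (fun hh => hs hh.1)]
        have hns : ¬ IsSquare (m * n) := fun hh => hmn (sqf_mul_sq sm sn hh)
        have hodd : Odd (m * n) := hm.2.mul hn.2
        have h4 := ch e he c hc hco (m * n) hodd hns y h
        have h5 : ∑ d ∈ D, js (e * (d : ℤ)) m * js (e * (d : ℤ)) n =
            ∑ d ∈ D, js (e * (d : ℤ)) (m * n) := by
          apply sum_congr rfl
          intro d _
          unfold js
          rw [jacobiSym.mul_right' _ (by omega) (by omega)]
          push_cast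
          ring
        rw [h5]
        have h6 : ∑ d ∈ D, js (e * (d : ℤ)) (m * n) ≤ 8 * (m : ℝ) * n := by
          refine (le_abs_self _).trans (h4.trans (le_of_eq ?_))
          push_cast
          ring
        have h7 : rr A P K m * rr A P K n ≤ 1 := mul_le_one₀ rm1 rn0 rn1
        have h8 : 0 ≤ rr A P K m * rr A P K n := mul_nonneg rm0 rn0
        calc _ ≤ rr A P K m * rr A P K n * (8 * (m : ℝ) * n) := mul_le_mul_of_nonneg_left h6 h8
          _ ≤ 1 * (8 * (m : ℝ) * n) := mul_le_mul_of_nonneg_right h7 hmn0
          _ = _ := by ring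
  rw [e1]
  calc _ ≤ ∑ m ∈ O, ∑ n ∈ O, ((if m = n then rr A P K m ^ 2 * h else 0) + 8 * (m : ℝ) * n) :=
        sum_le_sum fun m hm => sum_le_sum fun n hn => h1 m hm n hn
    _ = (∑ m ∈ O, rr A P K m ^ 2) * h + 8 * (∑ m ∈ O, (m : ℝ)) ^ 2 := by
        simp_rw [sum_add_distrib]
        have e3 : ∑ m ∈ O, ∑ n ∈ O, (if m = n then rr A P K m ^ 2 * (h : ℝ) else 0) =
            (∑ m ∈ O, rr A P K m ^ 2) * h := by
          rw [sum_mul]
          apply sum_congr rfl
          intro m hm
          rw [sum_ite_eq, if_pos hm]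
        have e4 : ∑ m ∈ O, ∑ n ∈ O, 8 * (m : ℝ) * n = 8 * (∑ m ∈ O, (m : ℝ)) ^ 2 := by
          rw [sq, sum_mul_sum, mul_sum]
          apply sum_congr rfl
          intro m _
          rw [mul_sum]
          apply sum_congr rfl
          intro n _
          ring
        rw [e3, e4]
    _ ≤ (∏ p ∈ SP P K, (1 + A ^ 2 / (p : ℝ))) * h + 8 * ((N : ℝ) ^ 2) ^ 2 := by
        have h9 : ∑ m ∈ O, (m : ℝ) ≤ (N : ℝ) ^ 2 := by
          calc ∑ m ∈ O, (m : ℝ) ≤ ∑ m ∈ O, (N : ℝ) := by
                apply sum_le_sum
                intro m hm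
                rw [hO, mem_filter, mem_Icc] at hm
                exact_mod_cast hm.1.2
            _ = O.card * N := by rw [sum_const, nsmul_eq_mul]
            _ ≤ N * N := by
                apply mul_le_mul_of_nonneg_right _ (by positivity)
                have : O.card ≤ N := by
                  refine (card_filter_le _ _).trans ?_
                  rw [Nat.card_Icc]; omega
                exact_mod_cast this
            _ = _ := by ring
        have h10 : 0 ≤ ∑ m ∈ O, (m : ℝ) := sum_nonneg fun m _ => by positivity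
        have h11 := sum_rr_sq (A := A) P K O
        have h12 := mul_le_mul_of_nonneg_right h11 (by positivity : (0 : ℝ) ≤ h)
        have h13 := pow_le_pow_left₀ h10 h9 2
        linarith
    _ = _ := by ring

end

end Pool.Agent.Q238.EXT
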